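import Mathlib

set_option autoImplicit false

open Finset Polynomial

namespace Pool.Agent.P.MP_f55c5e_co

variable {K I : Type} 

/-- adjacency (one direction) of the gadget graph: a clique on `K`, a centre `none`, leaves `some i`. -/
def gadRel (Fc : Finset K) (F : I → Finset K) : K ⊕ Option I → K ⊕ Option I → Prop
  | Sum.inl _, Sum.inl _ => True
  | Sum.inl a, Sum.inr none => a ∈ Fc
  | Sum.inl a, Sum.inr (some i) => a ∈ F i
  | Sum.inr none, Sum.inr (some _) => True
  | _, _ => False

/-- The gadget graph. -/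
def gad (Fc : Finset K) (F : I → Finset K) : SimpleGraph (K ⊕ Option I) :=
  SimpleGraph.fromRel (gadRel Fc F)

lemma valid_iff (Fc : Finset K) (F : I → Finset K) {C : Type} (f : K ⊕ Option I → C) :
    (∀ {u v}, (gad Fc F).Adj u v → f u ≠ f v) ↔
      (Function.Injective (fun a => f (Sum.inl a)) ∧
        (∀ a ∈ Fc, f (Sum.inl a) ≠ f (Sum.inr none)) ∧
        (∀ i, (∀ a ∈ F i, f (Sum.inl a) ≠ f (Sum.inr (some i))) ∧
          f (Sum.inr none) ≠ f (Sum.inr (some i)))) := by
  constructor
  · intro h
    refine ⟨?_, ?_, ?_⟩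
    · intro a b hab
      by_contra hne
      exact h (u := Sum.inl a) (v := Sum.inl b) (by simp [gad, gadRel, hne]) hab
    · intro a ha
      exact h (by simp [gad, gadRel, ha])
    · intro i
      refine ⟨fun a ha => h (by simp [gad, gadRel, ha]), h (by simp [gad, gadRel])⟩
  · rintro ⟨h1, h2, h3⟩
    have key : ∀ u v, u ≠ v → gadRel Fc F u v → f u ≠ f v := by
      intro u v huv h
      rcases u with a | _ | i <;> rcases v with b | _ | j
      · intro hab
        exact huv (congrArg Sum.inl (h1 hab))
      · exact h2 a h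
      · exact (h3 j).1 a h
      · exact h.elim
      · exact h.elim
      · exact (h3 j).2
      · exact h.elim
      · exact h.elim
      · exact h.elim
    intro u v huv
    rw [gad, SimpleGraph.fromRel_adj] at huv
    rcases huv with ⟨hne, h | h⟩
    · exact key u v hne h
    · exact (key v u hne.symm h).symm

/-- Colourings of the gadget, decomposed. -/
def colEquiv (Fc : Finset K) (F : I → Finset K) (C : Type) [DecidableEq C] :
    (gad Fc F).Coloring C ≃
      Σ φ : K ↪ C, Σ a : {a : C // a ∉ Fc.map φ}, ∀ i : I, {b : C // b ∉ insert a.1 ((F i).map φ)} where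
  toFun f :=
    have h := (valid_iff Fc F f).1 (fun h => f.valid h)
    ⟨⟨fun a => f (Sum.inl a), h.1⟩,
      ⟨f (Sum.inr none), by
        simp only [Finset.mem_map, not_exists, not_and]
        intro a ha
        exact h.2.1 a ha⟩,
      fun i => ⟨f (Sum.inr (some i)), by
        simp only [Finset.mem_insert, Finset.mem_map, not_or, not_exists, not_and]
        exact ⟨((h.2.2 i).2).symm, fun a ha => (h.2.2 i).1 a ha⟩⟩⟩
  invFun x :=
    SimpleGraph.Coloring.mk
      (Sum.elim (fun a => x.1 a) (fun o => Option.elim o x.2.1.1 (fun i => (x.2.2 i).1)))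
      ((valid_iff Fc F
        (Sum.elim (fun a => x.1 a) (fun o => Option.elim o x.2.1.1 (fun i => (x.2.2 i).1)))).2 (by
        refine ⟨x.1.injective, ?_, ?_⟩
        · intro a ha h
          exact x.2.1.2 (Finset.mem_map.2 ⟨a, ha, h⟩)
        · intro i
          refine ⟨fun a ha h => ?_, fun h => ?_⟩
          · exact (x.2.2 i).2 (Finset.mem_insert_of_mem (Finset.mem_map.2 ⟨a, ha, h⟩))
          · exact (x.2.2 i).2 (Finset.mem_insert.2 (Or.inl h.symm))))
  left_inv f := by
    ext v
    rcases v with a | _ | i <;> rfl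
  right_inv x := rfl

/-- The interesting factor of the chromatic polynomial. -/
noncomputable def factor [Fintype K] [DecidableEq K] [Fintype I]
    (Fc : Finset K) (F : I → Finset K) : ℤ[X] :=
  (X - C (Fintype.card K : ℤ)) * ∏ i, (X - C ((F i).card : ℤ) - 1) +
    ∑ x ∈ Fcᶜ, ∏ i, (X - C ((F i).card : ℤ) - if x ∈ F i then 0 else 1)

lemma card_not_mem {C : Type} [Fintype C] [DecidableEq C] (T : Finset C) :
    (Fintype.card {b : C // b ∉ T} : ℤ) = Fintype.card C - T.card := by
  rw [Fintype.card_subtype_compl, Fintype.card_coe, Nat.cast_sub (Finset.card_le_univ T)]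

lemma inner_count [Fintype K] [DecidableEq K] [Fintype I] [DecidableEq I]
    (Fc : Finset K) (F : I → Finset K) {C : Type} [Fintype C] [DecidableEq C] (φ : K ↪ C) :
    (Fintype.card (Σ a : {a : C // a ∉ Fc.map φ},
      ∀ i : I, {b : C // b ∉ insert a.1 ((F i).map φ)}) : ℤ) =
      (factor Fc F).eval (Fintype.card C : ℤ) := by
  rw [Fintype.card_sigma]
  push_cast
  have h1 : ∀ a : {a : C // a ∉ Fc.map φ},
      (Fintype.card (∀ i : I, {b : C // b ∉ insert a.1 ((F i).map φ)}) : ℤ) =
        ∏ i, ((Fintype.card C : ℤ) - (F i).card - if a.1 ∈ (F i).map φ then 0 else 1) := by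
    intro a
    rw [Fintype.card_pi]
    push_cast
    refine Finset.prod_congr rfl fun i _ => ?_
    rw [card_not_mem, Finset.card_insert_eq_ite, Finset.card_map]
    split_ifs
    · simp
    · push_cast; ring
  simp_rw [h1]
  have h2 : (∑ a : {a : C // a ∉ Fc.map φ},
      ∏ i, ((Fintype.card C : ℤ) - (F i).card - if a.1 ∈ (F i).map φ then 0 else 1)) =
      ∑ a ∈ (Fc.map φ)ᶜ,
        ∏ i, ((Fintype.card C : ℤ) - (F i).card - if a ∈ (F i).map φ then 0 else 1) := by
    symm
    apply Finset.sum_subtype
    intro x; simp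
  rw [h2]
  have h3 : (Fc.map φ)ᶜ = (Finset.univ.map φ)ᶜ ∪ (Fcᶜ).map φ := by
    ext a
    simp only [Finset.mem_compl, Finset.mem_map, Finset.mem_union, Finset.mem_univ, true_and,
      not_exists, not_and]
    constructor
    · intro h
      by_cases ha : ∃ x, φ x = a
      · obtain ⟨x, hx⟩ := ha
        exact Or.inr ⟨x, fun hx' => h x hx' hx, hx⟩
      · exact Or.inl fun x hx => ha ⟨x, hx⟩
    · rintro (h | ⟨x, hx, rfl⟩)
      · exact fun x _ => h x
      · intro y hy hyx
        exact hx (φ.injective hyx ▸ hy)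
  have h4 : Disjoint (Finset.univ.map φ)ᶜ ((Fcᶜ).map φ) := by
    rw [Finset.disjoint_left]
    intro a ha hb
    rw [Finset.mem_compl] at ha
    exact ha (Finset.map_subset_map.2 (Finset.subset_univ _) hb)
  rw [h3, Finset.sum_union h4, Finset.sum_map]
  have h5 : ∀ a ∈ (Finset.univ.map φ)ᶜ,
      ∏ i, ((Fintype.card C : ℤ) - (F i).card - if a ∈ (F i).map φ then 0 else 1) =
      ∏ i, ((Fintype.card C : ℤ) - (F i).card - 1) := by
    intro a ha
    refine Finset.prod_congr rfl fun i _ => ?_
    rw [if_neg]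
    intro hb
    rw [Finset.mem_compl] at ha
    exact ha (Finset.map_subset_map.2 (Finset.subset_univ _) hb)
  rw [Finset.sum_congr rfl h5, Finset.sum_const, Finset.card_compl, Finset.card_map,
    Finset.card_univ, nsmul_eq_mul,
    Nat.cast_sub (Fintype.card_le_of_embedding φ)]
  simp only [factor, eval_add, eval_mul, eval_sub, eval_X, eval_C, eval_prod, eval_one,
    eval_finsetSum, Finset.mem_map']
  congr 1
  refine Finset.sum_congr rfl fun x _ => Finset.prod_congr rfl fun i _ => ?_
  split_ifs <;> simp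

lemma count [Fintype K] [DecidableEq K] [Fintype I] [DecidableEq I]
    (Fc : Finset K) (F : I → Finset K) (q : ℕ) :
    (descPochhammer ℤ (Fintype.card K) * factor Fc F).eval (q : ℤ) =
      (Nat.card ((gad Fc F).Coloring (Fin q)) : ℤ) := by
  rw [Nat.card_congr (colEquiv Fc F (Fin q)), Nat.card_eq_fintype_card, Fintype.card_sigma]
  push_cast
  simp_rw [inner_count]
  rw [Finset.sum_const, Finset.card_univ, Fintype.card_embedding_eq, eval_mul,
    descPochhammer_eval_eq_descFactorial, Fintype.card_fin, nsmul_eq_mul]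

/-- transport of colourings along an isomorphism -/
def isoColEquiv {V W C : Type} {G : SimpleGraph V} {H : SimpleGraph W} (e : G ≃g H) :
    G.Coloring C ≃ H.Coloring C where
  toFun f := f.comp e.symm.toHom
  invFun f := f.comp e.toHom
  left_inv f := by ext v; simp
  right_inv f := by ext v; simp

theorem exists_graph [Fintype K] [DecidableEq K] [Fintype I] [DecidableEq I]
    (Fc : Finset K) (F : I → Finset K) (z : ℂ) (hz : aeval z (factor Fc F) = 0) :
    ∃ m : ℕ, ∃ G : SimpleGraph (Fin m), ∃ p : ℤ[X],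
        (∀ q : ℕ, p.eval (q : ℤ) = (Nat.card (G.Coloring (Fin q)) : ℤ)) ∧
        aeval z p = 0 := by
  refine ⟨Fintype.card (K ⊕ Option I), (gad Fc F).overFin rfl,
    descPochhammer ℤ (Fintype.card K) * factor Fc F, fun q => ?_, ?_⟩
  · rw [count, Nat.card_congr (isoColEquiv ((gad Fc F).overFinIso rfl))]
  · rw [map_mul, hz, mul_zero]

end Pool.Agent.P.MP_f55c5e_co
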