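import Mathlib
import Pool.Agent.P.MP_f55c5e_co.Count

set_option autoImplicit false

open Finset Polynomial

namespace Pool.Agent.P.MP_f55c5e_co

/-- the basic ratio -/
noncomputable def vv (α : ℂ) (c : ℤ) : ℂ := 1 + (α + c)⁻¹

/-- products of basic ratios with shifts at least `-B` -/
def WW (α : ℂ) (B : ℤ) : Submonoid ℂ where
  carrier := {w | ∃ (I : Type) (_ : Fintype I) (c : I → ℤ), (∀ i, -B ≤ c i) ∧ w = ∏ i, vv α (c i)}
  one_mem' := ⟨Empty, inferInstance, fun i => i.elim, fun i => i.elim, by simp⟩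
  mul_mem' := by
    rintro _ _ ⟨I, _, c, hc, rfl⟩ ⟨I', _, c', hc', rfl⟩
    refine ⟨I ⊕ I', inferInstance, Sum.elim c c', ?_, ?_⟩
    · rintro (i | i)
      · exact hc i
      · exact hc' i
    · simp [Fintype.prod_sum_type]

/-- sums of `w - 1` -/
def NN (α : ℂ) (B : ℤ) : AddSubmonoid ℂ where
  carrier := {x | ∃ (I J : Type) (_ : Fintype I) (_ : Fintype J) (_ : DecidableEq J)
    (s : I → J) (c : I → ℤ), (∀ i, -B ≤ c i) ∧
      x = ∑ j, ((∏ i, if s i = j then vv α (c i) else 1) - 1)}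
  zero_mem' := ⟨Empty, Empty, inferInstance, inferInstance, inferInstance, id, fun i => i.elim,
    fun i => i.elim, by simp⟩
  add_mem' := by
    rintro _ _ ⟨I, J, _, _, _, s, c, hc, rfl⟩ ⟨I', J', _, _, _, s', c', hc', rfl⟩
    refine ⟨I ⊕ I', J ⊕ J', inferInstance, inferInstance, inferInstance, Sum.map s s',
      Sum.elim c c', ?_, ?_⟩
    · rintro (i | i)
      · exact hc i
      · exact hc' i
    · simp [Fintype.prod_sum_type, Fintype.sum_sum_type]
      ring

lemma vv_mem {α : ℂ} {B c : ℤ} (h : -B ≤ c) : vv α c ∈ WW α B :=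
  ⟨Unit, inferInstance, fun _ => c, fun _ => h, by simp⟩

lemma sub_one_mem {α : ℂ} {B : ℤ} {w : ℂ} (hw : w ∈ WW α B) : w - 1 ∈ NN α B := by
  obtain ⟨I, _, c, hc, rfl⟩ := hw
  exact ⟨I, Unit, inferInstance, inferInstance, inferInstance, fun _ => (), c, hc, by simp⟩

theorem root_of_mem (α : ℂ) (hα : ∀ c : ℤ, α + c ≠ 0) (B γ : ℤ) (hγ : B ≤ γ)
    (hmem : (γ : ℂ) - α ∈ NN α B) :
    ∃ n : ℤ, ∃ m : ℕ, ∃ G : SimpleGraph (Fin m), ∃ p : ℤ[X],
        (∀ q : ℕ, p.eval (q : ℤ) = (Nat.card (G.Coloring (Fin q)) : ℤ)) ∧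
        aeval (α + (n : ℂ)) p = 0 := by
  classical
  obtain ⟨I, J, _, _, _, s, c, hc, hsum⟩ := hmem
  obtain ⟨n, hn1, hn2⟩ : ∃ n : ℤ, (∀ i, 2 + c i ≤ n) ∧ 0 ≤ n + γ := by
    obtain ⟨M, hM⟩ := (Set.finite_range c).bddAbove
    refine ⟨max (2 + M) (-γ), fun i => ?_, ?_⟩
    · have := hM (Set.mem_range_self i)
      exact le_max_of_le_left (by linarith)
    · have := le_max_right (2 + M) (-γ)
      linarith
  obtain ⟨g, hg⟩ := Int.eq_ofNat_of_zero_le hn2
  have hT : ∀ i, ∃ T : Finset (Fin g), (T.card : ℤ) = n - 2 - c i := by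
    intro i
    obtain ⟨t, ht⟩ := Int.eq_ofNat_of_zero_le (show 0 ≤ n - 2 - c i by linarith [hn1 i])
    have htg : t ≤ (Finset.univ : Finset (Fin g)).card := by
      rw [Finset.card_univ, Fintype.card_fin]
      have := hc i
      omega
    obtain ⟨T, -, hTc⟩ := Finset.exists_subset_card_eq htg
    exact ⟨T, by rw [hTc, ht]⟩
  choose T hT using hT
  refine ⟨n, exists_graph (K := J ⊕ Fin g) (I := I) (Finset.univ.map Function.Embedding.inr)
    (fun i => insert (Sum.inl (s i)) ((T i).map Function.Embedding.inr)) _ ?_⟩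
  have hcard : ∀ i, ((insert (Sum.inl (s i)) ((T i).map Function.Embedding.inr) :
      Finset (J ⊕ Fin g)).card : ℤ) = n - 1 - c i := by
    intro i
    rw [Finset.card_insert_of_notMem (by simp), Finset.card_map]
    push_cast
    rw [hT]; ring
  have hcompl : ((Finset.univ.map Function.Embedding.inr : Finset (J ⊕ Fin g)))ᶜ =
      Finset.univ.map Function.Embedding.inl := by
    ext x
    rcases x with j | t <;> simp
  simp only [factor, hcard, hcompl, Finset.sum_map, map_add, map_mul, map_sub, map_prod, map_sum,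
    aeval_X, aeval_C, map_one, Fintype.card_sum, Fintype.card_fin]
  have h1 : ∀ j : J, ∏ i, (α + (n : ℂ) - (algebraMap ℤ ℂ n - 1 - algebraMap ℤ ℂ (c i)) -
      aeval (α + (n : ℂ)) (if (Function.Embedding.inl j : J ⊕ Fin g) ∈
        (insert (Sum.inl (s i)) ((T i).map Function.Embedding.inr) : Finset (J ⊕ Fin g))
        then (0 : ℤ[X]) else 1)) =
      (∏ i, (α + c i)) * ∏ i, if s i = j then vv α (c i) else 1 := by
    intro j
    rw [← Finset.prod_mul_distrib]
    refine Finset.prod_congr rfl fun i _ => ?_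
    by_cases h : s i = j
    · have := hα (c i)
      simp [h, vv]
      field_simp
      ring
    · have h' : ¬ j = s i := fun e => h e.symm
      simp [h, h']
      ring
  have h2 : ∏ i, (α + (n : ℂ) - (algebraMap ℤ ℂ n - 1 - algebraMap ℤ ℂ (c i)) - 1) =
      ∏ i, (α + c i) := by
    refine Finset.prod_congr rfl fun i _ => ?_
    simp
    ring
  rw [Finset.sum_congr rfl (fun j _ => h1 j), h2, ← Finset.mul_sum]
  rw [Finset.sum_sub_distrib] at hsum
  have hg' : (n : ℂ) + γ = g := by exact_mod_cast hg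
  simp only [Finset.sum_const, Finset.card_univ, nsmul_eq_mul, mul_one] at hsum
  have h3 : (∑ j, ∏ i, if s i = j then vv α (c i) else 1) = γ - α + Fintype.card J := by
    rw [hsum]; ring
  rw [h3]
  simp only [Nat.cast_add, map_add, map_natCast]
  rw [← hg']
  ring

end Pool.Agent.P.MP_f55c5e_co
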