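import Mathlib
import Pool.Agent.P.MP_f55c5e_co.Glue

set_option autoImplicit false

open Finset Polynomial Filter

namespace Pool.Agent.P.MP_f55c5e_co

/-- telescoping products -/
lemma ratio_mem {α : ℂ} (hα : ∀ c : ℤ, α + c ≠ 0) {B a : ℤ} (ha : -B ≤ a) (s : ℕ) :
    (α + a + s) / (α + a) ∈ WW α B := by
  induction s with
  | zero =>
    have : (α + a + (0 : ℕ)) / (α + a) = 1 := by
      have := hα a
      simp [this]
    rw [this]; exact one_mem _
  | succ s ih =>
    have h1 := hα a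
    have h2 := hα (a + s)
    have : (α + a + (s + 1 : ℕ)) / (α + a) = (α + a + s) / (α + a) * vv α (a + s) := by
      push_cast at h2 ⊢
      rw [vv]
      push_cast
      have h3 : α + a + s ≠ 0 := by rw [add_assoc]; exact h2
      field_simp
      ring
    rw [this]
    exact mul_mem ih (vv_mem (by omega))

/-- nonnegative polynomials -/
lemma poly_mem {α : ℂ} {B : ℤ} {w ρ : ℂ} (hw : w ∈ WW α B) (hρ : ρ ∈ WW α B) (P : ℤ[X])
    (hP : ∀ j, 0 ≤ P.coeff j) : w * aeval ρ P - ((P.eval 1 : ℤ) : ℂ) ∈ NN α B := by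
  have h1 : w * aeval ρ P - ((P.eval 1 : ℤ) : ℂ) =
      ∑ j ∈ range (P.natDegree + 1), (P.coeff j).toNat • (w * ρ ^ j - 1) := by
    rw [aeval_eq_sum_range, eval_eq_sum_range, Finset.mul_sum]
    push_cast
    rw [← Finset.sum_sub_distrib]
    refine Finset.sum_congr rfl fun j _ => ?_
    have : ((P.coeff j).toNat : ℂ) = (P.coeff j : ℂ) := by
      have := Int.toNat_of_nonneg (hP j)
      exact_mod_cast congrArg (fun z : ℤ => (z : ℂ)) this
    rw [nsmul_eq_mul, this, zsmul_eq_mul]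
    ring
  rw [h1]
  exact sum_mem fun j _ => nsmul_mem (sub_one_mem (mul_mem hw (pow_mem hρ j))) _

lemma eventually_pos (d : ℕ) : ∀ b : ℕ → ℤ, 0 < b d →
    ∀ᶠ N : ℕ in atTop, 0 < ∑ i ∈ range (d + 1), b i * (N : ℤ) ^ i := by
  induction d with
  | zero => intro b hb; exact Eventually.of_forall fun N => by simpa using hb
  | succ d ih =>
    intro b hb
    have h := ih (fun i => b (i + 1)) hb
    filter_upwards [h, eventually_gt_atTop (b 0).natAbs] with N hN hN'
    rw [Finset.sum_range_succ']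
    have : ∑ i ∈ range (d + 1), b (i + 1) * (N : ℤ) ^ (i + 1) =
        N * ∑ i ∈ range (d + 1), b (i + 1) * (N : ℤ) ^ i := by
      rw [Finset.mul_sum]
      refine Finset.sum_congr rfl fun i _ => by ring
    rw [this]
    have h2 : (N : ℤ) ≤ N * ∑ i ∈ range (d + 1), b (i + 1) * (N : ℤ) ^ i := by
      nlinarith [(Int.natCast_nonneg N)]
    have h3 : -(N : ℤ) < b 0 := by omega
    simp only [pow_zero, mul_one]
    linarith

lemma exists_L (d : ℕ) : ∃ L : ℕ, 0 < L ∧ ((L : ℤ) + 1) ^ d < 2 * (L : ℤ) ^ d := by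
  have h : Tendsto (fun L : ℕ => (1 + ((L : ℝ))⁻¹) ^ d) atTop (nhds ((1 + 0) ^ d)) :=
    (tendsto_const_nhds.add tendsto_inv_atTop_nhds_zero_nat).pow d
  have h2 : ∀ᶠ L : ℕ in atTop, (1 + ((L : ℝ))⁻¹) ^ d < 2 :=
    h.eventually (gt_mem_nhds (by simp))
  obtain ⟨L, hL, hL0⟩ := (h2.and (eventually_gt_atTop 0)).exists
  refine ⟨L, hL0, ?_⟩
  have hpos : (0 : ℝ) < L := by exact_mod_cast hL0
  have : ((L : ℝ) + 1) ^ d < 2 * (L : ℝ) ^ d := by
    have e : (L : ℝ) + 1 = (1 + ((L : ℝ))⁻¹) * L := by field_simp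
    rw [e, mul_pow]
    exact mul_lt_mul_of_pos_right hL (pow_pos hpos d)
  exact_mod_cast this

/-- The transformed polynomial. -/
noncomputable def gg (f : ℤ[X]) (L N : ℕ) : ℤ[X] :=
  ∑ i ∈ range (f.natDegree + 1),
    C (f.coeff i * (N : ℤ) ^ i) * ((X + C (L : ℤ)) ^ i * (X - 1) ^ (f.natDegree - i))

lemma gg_root {α : ℂ} (hα : ∀ c : ℤ, α + c ≠ 0) (f : ℤ[X]) (hf : aeval α f = 0) (L N : ℕ) :
    aeval ((α + L * N) / (α - N)) (gg f L N) = 0 := by
  have h1 : α - N ≠ 0 := by
    have := hα (-N)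
    push_cast at this
    rwa [sub_eq_add_neg]
  set ρ := (α + L * N) / (α - N) with hρ
  have h2 : (N : ℂ) * (ρ + L) = α * (ρ - 1) := by
    rw [hρ]; field_simp; ring
  rw [aeval_eq_sum_range] at hf
  have h3 : aeval ρ (gg f L N) =
      (∑ i ∈ range (f.natDegree + 1), f.coeff i • α ^ i) * (ρ - 1) ^ f.natDegree := by
    rw [gg, map_sum, Finset.sum_mul]
    refine Finset.sum_congr rfl fun i hi => ?_
    have hi' : i ≤ f.natDegree := Nat.lt_succ_iff.1 (Finset.mem_range.1 hi)
    simp only [map_mul, map_pow, map_add, map_sub, aeval_X, map_one, map_natCast,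
      zsmul_eq_mul, eq_intCast, map_intCast]
    have h4 : (ρ - 1) ^ f.natDegree = (ρ - 1) ^ i * (ρ - 1) ^ (f.natDegree - i) := by
      rw [← pow_add]; congr 1; omega
    have h5 : (N : ℂ) ^ i * (ρ + L) ^ i = α ^ i * (ρ - 1) ^ i := by
      rw [← mul_pow, h2, mul_pow]
    rw [h4]
    linear_combination (f.coeff i : ℂ) * (ρ - 1) ^ (f.natDegree - i) * h5
  rw [h3, hf, zero_mul]

lemma exists_good (f : ℤ[X]) (hf : f.Monic) :
    ∃ L N : ℕ, (∀ j, 0 ≤ (gg f L N).coeff j) ∧ (gg f L N).eval 1 < 2 * (gg f L N).coeff 0 := by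
  obtain ⟨L, hL0, hL⟩ := exists_L f.natDegree
  set d := f.natDegree with hd
  have hcd : f.coeff d = 1 := hf.coeff_natDegree
  have hco : ∀ N j, (gg f L N).coeff j = ∑ i ∈ range (d + 1),
      (f.coeff i * ((X + C (L : ℤ)) ^ i * (X - 1) ^ (d - i) : ℤ[X]).coeff j) * (N : ℤ) ^ i := by
    intro N j
    rw [gg, finsetSum_coeff]
    refine Finset.sum_congr rfl fun i _ => ?_
    rw [coeff_C_mul]; ring
  have h1 : ∀ j ∈ range (d + 1), ∀ᶠ N : ℕ in atTop, 0 < (gg f L N).coeff j := by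
    intro j hj
    simp_rw [hco]
    apply eventually_pos d
      (fun i => f.coeff i * ((X + C (L : ℤ)) ^ i * (X - 1) ^ (d - i) : ℤ[X]).coeff j)
    simp only [hcd, Nat.sub_self, pow_zero, mul_one, one_mul, coeff_X_add_C_pow]
    have : 0 < d.choose j := Nat.choose_pos (Nat.lt_succ_iff.1 (Finset.mem_range.1 hj))
    positivity
  have h2 : ∀ᶠ N : ℕ in atTop, 0 < 2 * (gg f L N).coeff 0 - (gg f L N).eval 1 := by
    have e : ∀ N : ℕ, 2 * (gg f L N).coeff 0 - (gg f L N).eval 1 = ∑ i ∈ range (d + 1),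
        (f.coeff i * (2 * ((L : ℤ) ^ i * (-1) ^ (d - i)) - ((L : ℤ) + 1) ^ i * 0 ^ (d - i))) *
          (N : ℤ) ^ i := by
      intro N
      rw [coeff_zero_eq_eval_zero, gg, eval_finsetSum, eval_finsetSum, Finset.mul_sum,
        ← Finset.sum_sub_distrib]
      refine Finset.sum_congr rfl fun i _ => ?_
      simp only [eval_mul, eval_C, eval_pow, eval_add, eval_sub, eval_X, eval_one, zero_add,
        zero_sub, sub_self]
      ring
    simp_rw [e]
    apply eventually_pos d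
      (fun i => f.coeff i * (2 * ((L : ℤ) ^ i * (-1) ^ (d - i)) - ((L : ℤ) + 1) ^ i * 0 ^ (d - i)))
    simp only [hcd, Nat.sub_self, pow_zero, mul_one, one_mul]
    linarith
  obtain ⟨N, hN1, hN2⟩ := (((Filter.eventually_all_finset _).2 h1).and h2).exists
  refine ⟨L, N, fun j => ?_, by linarith⟩
  by_cases hj : j ∈ range (d + 1)
  · exact (hN1 j hj).le
  · rw [hco]
    apply le_of_eq
    symm
    refine Finset.sum_eq_zero fun i hi => ?_
    have hi' : i ≤ d := Nat.lt_succ_iff.1 (Finset.mem_range.1 hi)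
    have hj' : d < j := by simpa using hj
    have : ((X + C (L : ℤ)) ^ i * (X - 1) ^ (d - i) : ℤ[X]).natDegree < j := by
      refine lt_of_le_of_lt ?_ hj'
      refine natDegree_mul_le.trans ?_
      have a1 : ((X + C (L : ℤ)) ^ i : ℤ[X]).natDegree ≤ i := by
        refine natDegree_pow_le.trans ?_
        rw [natDegree_X_add_C]; simp
      have a2 : ((X - 1) ^ (d - i) : ℤ[X]).natDegree ≤ d - i := by
        refine natDegree_pow_le.trans ?_
        rw [← C_1, natDegree_X_sub_C]; simp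
      omega
    rw [coeff_eq_zero_of_natDegree_lt this]; simp

lemma int_smul_mem {α : ℂ} {B : ℤ} {x : ℂ} (hx : x ∈ NN α B) {z : ℤ} (hz : 0 ≤ z) :
    (z : ℂ) * x ∈ NN α B := by
  obtain ⟨k, rfl⟩ := Int.eq_ofNat_of_zero_le hz
  have := nsmul_mem hx k
  rw [nsmul_eq_mul] at this
  exact_mod_cast this

lemma exists_poly {α : ℂ} (h0 : α ≠ 0) (f : ℤ[X]) (hf : f.Monic) (hfα : aeval α f = 0) :
    ∃ p : ℤ[X], aeval (vv α 0) p = α := by
  have hinv : Invertible α := invertibleOfNonzero h0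
  have h1 : aeval α⁻¹ f.reverse = 0 := by
    rw [← invOf_eq_inv, aeval_def, eval₂_reverse_eq_zero_iff, ← aeval_def, hfα]
  have h2 : f.reverse = X * f.reverse.divX + 1 := by
    conv_lhs => rw [← X_mul_divX_add f.reverse, coeff_zero_reverse, hf.leadingCoeff, C_1]
  rw [h2] at h1
  simp only [map_add, map_mul, aeval_X, map_one] at h1
  refine ⟨-(f.reverse.divX.comp (X - 1)), ?_⟩
  have h3 : aeval (vv α 0) (X - 1 : ℤ[X]) = α⁻¹ := by simp [vv]
  rw [map_neg, aeval_comp, h3]
  have h4 : α * α⁻¹ = 1 := mul_inv_cancel₀ h0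
  linear_combination (-α) * h1 + (aeval α⁻¹ f.reverse.divX) * h4

theorem exists_mem {α : ℂ} (hα : ∀ c : ℤ, α + c ≠ 0) (hint : IsIntegral ℤ α) :
    ∃ B γ : ℤ, B ≤ γ ∧ (γ : ℂ) - α ∈ NN α B := by
  obtain ⟨f, hf, hfα⟩ := hint
  rw [← aeval_def] at hfα
  obtain ⟨L, N, hnn, hlt⟩ := exists_good f hf
  have hroot := gg_root hα f hfα L N
  set g := gg f L N with hg
  set ρ := (α + L * N) / (α - N) with hρ
  have hρW : ρ ∈ WW α N := by
    have := ratio_mem hα (B := N) (a := -N) le_rfl (L * N + N)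
    convert this using 2 <;> push_cast <;> ring
  set g0 := g.coeff 0 with hg0
  set P := g - C g0 with hP
  have hPnn : ∀ j, 0 ≤ P.coeff j := by
    intro j
    rw [hP, coeff_sub, coeff_C]
    split_ifs with h
    · subst h; simp [hg0]
    · simpa using hnn j
  have hPρ : aeval ρ P = -(g0 : ℂ) := by
    rw [hP, map_sub, hroot]; simp
  set E := P.eval 1 with hE
  have hE0 : 0 ≤ E := by
    rw [hE, eval_eq_sum_range]
    exact Finset.sum_nonneg fun j _ => by simpa using hPnn j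
  have hE1 : E = g.eval 1 - g0 := by rw [hE, hP]; simp
  have hE2 : E < g0 := by linarith
  have hi : ∀ w ∈ WW α N, w * (-(g0 : ℂ)) - E ∈ NN α N := by
    intro w hw
    have := poly_mem hw hρW P hPnn
    rwa [hPρ] at this
  have hii : (((g0 - E) * (g0 + E) : ℤ) : ℂ) ∈ NN α N := by
    have := poly_mem (one_mem _) hρW (P * P) (fun j => by
      rw [coeff_mul]
      exact Finset.sum_nonneg fun x _ => mul_nonneg (hPnn _) (hPnn _))
    rw [map_mul, hPρ, eval_mul] at this
    convert this using 1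
    push_cast; ring
  have hiii : ∀ w ∈ WW α N, 1 - w ∈ NN α N := by
    intro w hw
    have a1 := int_smul_mem (hi w hw) (z := g0 - E) (by linarith)
    have a2 := int_smul_mem (sub_one_mem hw) (z := (g0 - E) * g0 - 1) (by nlinarith)
    have := add_mem (add_mem a1 hii) a2
    convert this using 1
    push_cast; ring
  have hiv : ∀ w ∈ WW α N, ∀ p : ℤ[X], ((p.eval 1 : ℤ) : ℂ) - aeval w p ∈ NN α N := by
    intro w hw p
    induction p using Polynomial.induction_on' with
    | add p q hp hq =>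
      have := add_mem hp hq
      convert this using 1
      simp only [eval_add, map_add]
      push_cast; ring
    | monomial n z =>
      rcases le_total 0 z with hz | hz
      · have := int_smul_mem (hiii _ (pow_mem hw n)) hz
        convert this using 1
        simp [aeval_monomial]; ring
      · have := int_smul_mem (sub_one_mem (pow_mem hw n)) (z := -z) (by linarith)
        convert this using 1
        simp [aeval_monomial]; ring
  obtain ⟨p, hp⟩ := exists_poly (by simpa using hα 0) f hf hfα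
  have hv := hiv _ (vv_mem (α := α) (B := N) (c := 0) (by simp)) p
  rw [hp] at hv
  set T : ℤ := |(N : ℤ) - p.eval 1| with hT
  have hT0 : 0 ≤ T := abs_nonneg _
  have hΔ : 1 ≤ (g0 - E) * (g0 + E) := by nlinarith
  refine ⟨N, p.eval 1 + T * ((g0 - E) * (g0 + E)), ?_, ?_⟩
  · have := le_abs_self ((N : ℤ) - p.eval 1)
    nlinarith
  · have := add_mem hv (int_smul_mem hii hT0)
    convert this using 1
    push_cast; ring

theorem alpha_add_n (α : ℂ) (hint : IsIntegral ℤ α) :
    ∃ n : ℤ, ∃ m : ℕ, ∃ G : SimpleGraph (Fin m), ∃ p : ℤ[X],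
        (∀ q : ℕ, p.eval (q : ℤ) = (Nat.card (G.Coloring (Fin q)) : ℤ)) ∧
        aeval (α + (n : ℂ)) p = 0 := by
  by_cases hα : ∀ c : ℤ, α + c ≠ 0
  · obtain ⟨B, γ, h1, h2⟩ := exists_mem hα hint
    exact root_of_mem α hα B γ h1 h2
  · push Not at hα
    obtain ⟨c, hc⟩ := hα
    refine ⟨c, exists_graph (K := Empty) (I := Empty) ∅ (fun _ => ∅) _ ?_⟩
    simp [factor, hc]

end Pool.Agent.P.MP_f55c5e_co
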